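import Pool.Agent.W97.V20.Stm
import Pool.Agent.W97.TW.Eleven

/-!
`η(2z)² η(10z)²` is a cusp form of level `20`.
-/

set_option autoImplicit false

open UpperHalfPlane MatrixGroups CongruenceSubgroup Filter Topology Asymptotics
open scoped ModularForm Pointwise

namespace Pool.Agent.W45.V20

open Pool.Agent.W97.TW Pool.Agent.W97.V20

/-- the form as a function on the upper half-plane -/
noncomputable def e20 (z : ℍ) : ℂ := gg (2 * z)

lemma e20_eq (z : ℍ) : e20 z = G (2 * z) * G (10 * z) := by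
  unfold e20 gg G
  congr 3
  ring

lemma kap3_20 : ∀ a b c d : ZMod 3, a * d - b * (20 * c) = 1 →
    kap a (2 * b) (10 * c) d + kap a (10 * b) (2 * c) d = 0 := by
  decide

lemma kap4_20 : ∀ a b c d : ZMod 4, a * d - b * (20 * c) = 1 →
    kap a (2 * b) (10 * c) d + kap a (10 * b) (2 * c) d = 0 := by
  decide

lemma kap_20 {a b c d : ℤ} (h : a * d - b * (20 * c) = 1) :
    (12 : ℤ) ∣ kap a (2 * b) (10 * c) d + kap a (10 * b) (2 * c) d := by
  apply dvd12
  · have := (kap3_20 a b c d (by exact_mod_cast congrArg (Int.cast : ℤ → ZMod 3) h))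
    push_cast [cast_kap]
    rw [← this]
  · have := (kap4_20 a b c d (by exact_mod_cast congrArg (Int.cast : ℤ → ZMod 4) h))
    push_cast [cast_kap]
    rw [← this]

lemma e20_slash {γ : SL(2, ℤ)} (hγ : γ ∈ Gamma0 20) : e20 ∣[(2 : ℤ)] γ = e20 := by
  obtain ⟨a, b, c, d, h, rfl⟩ := exists_mkSL γ
  rw [mkSL_mem] at hγ
  obtain ⟨c, rfl⟩ := hγ
  funext z
  rw [ModularForm.SL_slash_apply, e20_eq, e20_eq, mkSL_smul, mkSL_denom]
  have h0' : a * d - b * (20 * c) = 1 := by push_cast at h; linarith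
  have h' : a * d - (2 * b) * (10 * c) = 1 := by linarith
  have h'' : a * d - (10 * b) * (2 * c) = 1 := by linarith
  have him2 : 0 < ((2 : ℂ) * z).im := im_mul_nat z.im_pos (n := 2) (by norm_num)
  have him10 : 0 < ((10 : ℂ) * z).im := im_mul_nat z.im_pos (n := 10) (by norm_num)
  have h0 := (im_moebius h z.im_pos).2
  have h1 := G_moebius h' him2
  have h2 := G_moebius h'' him10
  have e1 : (2 : ℂ) * ((a * z + b) / (((((20 : ℕ) : ℤ) * c : ℤ) : ℂ) * z + d)) =
      (a * (2 * z) + ((2 * b : ℤ) : ℂ)) / (((10 * c : ℤ) : ℂ) * (2 * z) + d) := by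
    push_cast
    rw [← mul_div_assoc]
    congr 1 <;> ring
  have e1' : (10 : ℂ) * ((a * z + b) / (((((20 : ℕ) : ℤ) * c : ℤ) : ℂ) * z + d)) =
      (a * (10 * z) + ((10 * b : ℤ) : ℂ)) / (((2 * c : ℤ) : ℂ) * (10 * z) + d) := by
    push_cast
    rw [← mul_div_assoc]
    congr 1 <;> ring
  rw [e1, e1', h1, h2]
  have e2 : ze ^ (kap a (2 * b) (10 * c) d) * ze ^ (kap a (10 * b) (2 * c) d) = 1 := by
    rw [← zpow_add₀ ze_ne]
    have h3 := kap_20 h0'
    have h4 := ze_congr (m := kap a (2 * b) (10 * c) d + kap a (10 * b) (2 * c) d) (n := 0)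
      (by rw [sub_zero]; exact h3)
    rw [h4, zpow_zero]
  have e3 : ((10 * c : ℤ) : ℂ) * (2 * z) + d = (((((20 : ℕ) : ℤ) * c : ℤ) : ℂ)) * z + d := by
    push_cast; ring
  have e3' : ((2 * c : ℤ) : ℂ) * (10 * z) + d = (((((20 : ℕ) : ℤ) * c : ℤ) : ℂ)) * z + d := by
    push_cast; ring
  rw [e3, e3']
  set X := ((((((20 : ℕ) : ℤ) * c : ℤ) : ℂ)) * (z : ℂ) + d) with hX
  have e4 : X * X * X ^ (-2 : ℤ) = 1 := by
    rw [zpow_neg, ← sq]
    exact mul_inv_cancel₀ (pow_ne_zero 2 h0)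
  linear_combination (G (2 * z) * G (10 * z) * (X * X * X ^ (-2 : ℤ))) * e2 + (G (2 * z) * G (10 * z)) * e4

lemma e20_holo : MDifferentiable (modelWithCornersSelf ℂ ℂ) (modelWithCornersSelf ℂ ℂ) e20 := by
  rw [UpperHalfPlane.mdifferentiable_iff]
  have h1 : DifferentiableOn ℂ (fun w : ℂ => gg (2 * w)) {z : ℂ | 0 < z.im} := by
    intro w hw
    have hw' : 0 < w.im := hw
    have him : 0 < ((2 : ℂ) * w).im := im_mul_nat hw' (n := 2) (by norm_num)
    have him' : 0 < ((5 : ℂ) * (2 * w)).im := im_mul_nat him (n := 5) (by norm_num)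
    have h2 := ModularForm.differentiableAt_eta_of_mem_upperHalfPlaneSet
      (show (2 : ℂ) * w ∈ upperHalfPlaneSet from him)
    have h3 := ModularForm.differentiableAt_eta_of_mem_upperHalfPlaneSet
      (show (5 : ℂ) * (2 * w) ∈ upperHalfPlaneSet from him')
    have h4 : DifferentiableAt ℂ (fun w : ℂ => ModularForm.eta (2 * w)) w :=
      DifferentiableAt.comp w h2 (by fun_prop)
    have h5 : DifferentiableAt ℂ (fun w : ℂ => ModularForm.eta (5 * (2 * w))) w :=
      DifferentiableAt.comp (f := fun w : ℂ => 5 * (2 * w)) w h3 (by fun_prop)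
    exact ((h4.pow 2).mul (h5.pow 2)).differentiableWithinAt
  refine h1.congr fun w hw => ?_
  simp only [Function.comp_apply]
  unfold e20
  rw [ofComplex_apply_of_im_pos hw]

lemma norm_ze : ‖ze‖ = 1 := by
  have h := ze_12
  rw [show (12 : ℤ) = ((12 : ℕ) : ℤ) by norm_num, zpow_natCast] at h
  exact Complex.norm_eq_one_of_pow_eq_one h (by norm_num)

lemma norm_G {a b c d : ℤ} (h : a * d - b * c = 1) {w : ℂ} (hw : 0 < w.im) :
    ‖G ((a * w + b) / (c * w + d))‖ = ‖(c : ℂ) * w + d‖ * ‖G w‖ := by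
  rw [G_moebius h hw, norm_mul, norm_mul, norm_zpow, norm_ze, one_zpow, one_mul]

/-- the Hermite form -/
lemma hermite {n : ℤ} (hn : 0 < n) {a b c d : ℤ} (h : a * d - b * c = 1) :
    ∃ x y u v p q r : ℤ, x * v - y * u = 1 ∧ 0 < p ∧ 0 < r ∧ n * a = x * p ∧
      n * b = x * q + y * r ∧ c = u * p ∧ d = u * q + v * r := by
  have hne : n * a ≠ 0 ∨ c ≠ 0 := by
    by_contra hcon
    push Not at hcon
    obtain ⟨h1, h2⟩ := hcon
    have h3 : a = 0 := (mul_eq_zero.1 h1).resolve_left hn.ne'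
    rw [h3, h2] at h
    simp at h
  have hg : 0 < Int.gcd (n * a) c := by
    rw [Int.gcd_pos_iff]
    exact hne
  obtain ⟨x, u, hcop, hx, hu⟩ := Int.exists_gcd_one hg
  have hbz := Int.gcd_eq_gcd_ab x u
  rw [hcop] at hbz
  set v := Int.gcdA x u
  set y := -Int.gcdB x u
  have h1 : x * v - y * u = 1 := by
    simp only [y]
    push_cast at hbz
    linarith
  set p : ℤ := (Int.gcd (n * a) c : ℤ) with hp
  have hp0 : 0 < p := by rw [hp]; exact_mod_cast hg
  refine ⟨x, y, u, v, p, v * (n * b) - y * d, x * d - u * (n * b), h1, hp0, ?_, hx, ?_, hu, ?_⟩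
  · have h2 : p * (x * d - u * (n * b)) = n := by
      have : p * (x * d - u * (n * b)) = (x * p) * d - (u * p) * (n * b) := by ring
      rw [this, ← hx, ← hu]
      linear_combination n * h
    have h3 : 0 < p * (x * d - u * (n * b)) := by rw [h2]; exact hn
    exact (pos_iff_pos_of_mul_pos h3).1 hp0
  · linear_combination (-(n * b)) * h1
  · linear_combination (-d) * h1

lemma G_tendsto : Tendsto (fun z : ℍ => G z) atImInfty (𝓝 0) := by
  have h1 : Tendsto (fun z : ℍ => G z ^ 12) atImInfty (𝓝 0) := by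
    refine (ModularForm.discriminant_isZeroAtImInfty : Tendsto _ _ _).congr fun z => ?_
    change ModularForm.eta z ^ 24 = _
    unfold G
    ring
  have h5 : (fun z : ℍ => G z ^ 12) =o[atImInfty] (fun _ : ℍ => (1 : ℝ) ^ 12) := by
    simp only [one_pow]
    exact (isLittleO_one_iff ℝ).2 h1
  exact (isLittleO_one_iff ℝ).1 (h5.of_pow (by norm_num))

/-- the factor `G(nw)` at an arbitrary cusp -/
lemma factor {n : ℕ} (hn : 0 < n) {a b c d : ℤ} (h : a * d - b * c = 1) :
    ∃ g : ℍ → ℝ, Tendsto g atImInfty (𝓝 0) ∧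
      ∀ z : ℍ, ‖G (n * ((a * z + b) / (c * z + d)))‖ = ‖(c : ℂ) * z + d‖ * g z := by
  obtain ⟨x, y, u, v, p, q, r, h1, hp, hr, e1, e2, e3, e4⟩ := hermite (n := n) (by exact_mod_cast hn) h
  have hrR : (0 : ℝ) < r := by exact_mod_cast hr
  have hpR : (0 : ℝ) < p := by exact_mod_cast hp
  have hrC : (r : ℂ) ≠ 0 := by exact_mod_cast hr.ne'
  have him : ∀ z : ℍ, (((p : ℂ) * z + q) / r).im = p / r * z.im := by
    intro z
    have : ((p : ℂ) * z + q) / r = (((p / r : ℝ)) : ℂ) * z + ((q / r : ℝ) : ℂ) := by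
      push_cast
      field_simp
    rw [this, Complex.add_im, Complex.mul_im]
    simp
  have hpos : ∀ z : ℍ, 0 < (((p : ℂ) * z + q) / r).im := by
    intro z
    rw [him]
    have := z.im_pos
    positivity
  set t : ℍ → ℍ := fun z => ⟨((p : ℂ) * z + q) / r, hpos z⟩ with ht
  have htt : Tendsto t atImInfty atImInfty := by
    rw [atImInfty, tendsto_comap_iff]
    have : (UpperHalfPlane.im ∘ t) = fun z : ℍ => p / r * z.im := by
      funext z
      exact him z
    rw [this]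
    exact (tendsto_comap).const_mul_atTop (div_pos hpR hrR)
  refine ⟨fun z => (r : ℝ)⁻¹ * ‖G (t z)‖, ?_, ?_⟩
  · have := ((G_tendsto.comp htt).norm).const_mul ((r : ℝ)⁻¹)
    rw [norm_zero, mul_zero] at this
    exact this
  · intro z
    have hden := (im_moebius h z.im_pos).2
    have hden2 := (im_moebius h1 (hpos z)).2
    have k1 : (u : ℂ) * (t z) + v = ((c : ℂ) * z + d) / r := by
      have e3' : (c : ℂ) = u * p := by exact_mod_cast congrArg (Int.cast : ℤ → ℂ) e3
      have e4' : (d : ℂ) = u * q + v * r := by exact_mod_cast congrArg (Int.cast : ℤ → ℂ) e4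
      change (u : ℂ) * (((p : ℂ) * z + q) / r) + v = _
      rw [e3', e4']
      field_simp
      ring
    have k2 : (n : ℂ) * ((a * z + b) / (c * z + d)) = (x * (t z) + y) / (u * (t z) + v) := by
      have e1' : (n : ℂ) * a = x * p := by exact_mod_cast congrArg (Int.cast : ℤ → ℂ) e1
      have e2' : (n : ℂ) * b = x * q + y * r := by exact_mod_cast congrArg (Int.cast : ℤ → ℂ) e2
      have k3 : (x : ℂ) * (t z) + y = ((n : ℂ) * (a * z + b)) / r := by
        have : (n : ℂ) * (a * z + b) = (x * p) * z + (x * q + y * r) := by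
          rw [← e1', ← e2']; ring
        rw [this]
        change (x : ℂ) * (((p : ℂ) * z + q) / r) + y = _
        field_simp
        ring
      rw [k1, k3, div_div_div_cancel_right₀ hrC, mul_div_assoc]
    rw [k2]
    have k4 := norm_G h1 (hpos z)
    change ‖G (((x : ℂ) * (t z) + y) / (u * (t z) + v))‖ = ‖(u : ℂ) * (t z) + v‖ * ‖G (t z)‖ at k4
    rw [k4, k1, norm_div]
    have : ‖(r : ℂ)‖ = r := by
      rw [Complex.norm_intCast, abs_of_pos hrR]
    rw [this]
    ring

lemma e20_zero (γ : SL(2, ℤ)) : IsZeroAtImInfty (e20 ∣[(2 : ℤ)] γ) := by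
  obtain ⟨a, b, c, d, h, rfl⟩ := exists_mkSL γ
  obtain ⟨g2, hg2, h2⟩ := factor (n := 2) (by norm_num) h
  obtain ⟨g10, hg10, h10⟩ := factor (n := 10) (by norm_num) h
  have h3 : Tendsto (fun z : ℍ => g2 z * g10 z) atImInfty (𝓝 0) := by
    have := hg2.mul hg10
    rwa [zero_mul] at this
  refine (tendsto_zero_iff_norm_tendsto_zero).2 (h3.congr fun z => ?_)
  have k2 := h2 z
  have k10 := h10 z
  push_cast at k2 k10
  rw [ModularForm.SL_slash_apply, e20_eq, mkSL_smul, mkSL_denom, norm_mul, norm_mul, k2, k10]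
  have hden := (im_moebius h z.im_pos).2
  have hX : ‖(c : ℂ) * z + d‖ ≠ 0 := norm_ne_zero_iff.2 hden
  rw [norm_zpow, zpow_neg]
  have : ‖(c : ℂ) * z + d‖ ^ (2 : ℤ) = ‖(c : ℂ) * z + d‖ ^ 2 := zpow_ofNat _ 2
  rw [this]
  field_simp

/-- `η(2z)² η(10z)²` as a cusp form -/
noncomputable def f20 : CuspForm (Gamma0 20 : Subgroup (GL (Fin 2) ℝ)) 2 where
  toFun := e20
  slash_action_eq' := by
    rintro _ ⟨γ, hγ, rfl⟩
    exact e20_slash hγ
  holo' := e20_holo
  zero_at_cusps' := by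
    intro c hc
    rw [Subgroup.IsArithmetic.isCusp_iff_isCusp_SL2Z] at hc
    rw [OnePoint.isZeroAt_iff_forall_SL2Z hc]
    intro γ _
    exact e20_zero γ

theorem s_form : Pool.Agent.W97.V20.S_FORM := ⟨f20, fun _ => rfl⟩

end Pool.Agent.W45.V20
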